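import Mathlib
import Pool.Agent.Helper82_NIB.Stmts

/-!
# NIB, module CGAM: the bound of `Γ̂`.
-/

set_option autoImplicit false

open Finset Matrix

namespace Pool.Agent.NIB.H39

section

variable {V : Type} [Fintype V]

lemma rs_sg_ge {sg : V → V → ℝ} (h : ∀ u v, sg u v = 0 ∨ sg u v = 1) (w : V × Bool)
    (hw : rs sg w ≠ 0) : 1 ≤ rs sg w := by
  have h0 : ∀ u v, 0 ≤ sg u v := fun u v => by rcases h u v with h | h <;> rw [h]; norm_num
  have h1 : ∃ w', mat sg w w' ≠ 0 := by
    by_contra hc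
    push Not at hc
    exact hw (by simp [rs, hc])
  obtain ⟨w', hw'⟩ := h1
  have h2 : mat sg w w' = 1 := by
    rcases w with ⟨w, _ | _⟩ <;> rcases w' with ⟨w', _ | _⟩ <;> simp at hw' ⊢
    · exact (h _ _).resolve_left hw'
    · exact (h _ _).resolve_left hw'
  calc (1 : ℝ) = mat sg w w' := h2.symm
    _ ≤ rs sg w := Finset.single_le_sum (fun a _ => mat_nonneg h0 w a) (Finset.mem_univ w')

end

theorem cgam (hE : EngStmt) (hG : GamStmt) (hI : CidnStmt) (hR : CrowStmt) : CgamStmt := by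
  classical
  intro V _ _ D hD
  have hA : IsSub (mat D.x) := isSub_mat hD.x0 hD.row
  have hAle : ∀ a b, mat D.x a b ≤ D.de := mat_le hD.de0 hD.xle
  obtain ⟨e0, -, e2, -, e3, en, -⟩ := hE (V × Bool) (mat D.x) hA
  have g := hG (V × Bool) (mat D.x) D.de D.ta hA hAle hD.ta1
  obtain ⟨-, -, -, i4⟩ := hI V D hD
  obtain ⟨-, -, -, r4, r5, r6, -⟩ := hR V D hD
  have hde := hD.de0
  have hth := hD.th0
  have hth1 := hD.th1
  have hta : (1 : ℝ) ≤ D.ta := by exact_mod_cast hD.ta1
  set A := mat D.x with hAdef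
  set G := grn A D.ta with hGdef
  -- `Q ≤ 3 E(A G (δ_w - δ_w')) + 12 eps δ`
  have hQ : ∀ w w', Qd A D.gh w w' ≤
      3 * En A (A *ᵥ (G *ᵥ (dl w - dl w'))) + 12 * D.eps * D.de := by
    intro w w'
    have h1 : A *ᵥ (D.gh w - D.gh w') =
        A *ᵥ (D.gh w - G *ᵥ dl w) + A *ᵥ (G *ᵥ (dl w - dl w')) +
          (-(A *ᵥ (D.gh w' - G *ᵥ dl w'))) := by
      rw [← Matrix.mulVec_neg, ← Matrix.mulVec_add, ← Matrix.mulVec_add, Matrix.mulVec_sub G]
      congr 1
      abel
    unfold Qd
    rw [h1]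
    have h2 := e3 (A *ᵥ (D.gh w - G *ᵥ dl w)) (A *ᵥ (G *ᵥ (dl w - dl w')))
      (-(A *ᵥ (D.gh w' - G *ᵥ dl w')))
    rw [en] at h2
    have h3 := e2 (A *ᵥ (D.gh w - G *ᵥ dl w))
    have h4 := e2 (A *ᵥ (D.gh w' - G *ᵥ dl w'))
    have h5 := hD.gh2 w
    have h6 := hD.gh2 w'
    linarith
  have hGam : ∀ w, Gamh A D.gh w ≤
      3 * (∑ w', A w w' * nnf A D.ta w' - nnf A D.ta w) + 7 * D.de := by
    intro w
    have h1 : Gamh A D.gh w ≤ ∑ w', A w w' *
        (3 * En A (A *ᵥ (G *ᵥ (dl w - dl w'))) + 12 * D.eps * D.de) := by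
      unfold Gamh
      exact Finset.sum_le_sum fun w' _ =>
        mul_le_mul_of_nonneg_left (hQ w w') (hA.nonneg w w')
    have h2 : ∑ w', A w w' *
        (3 * En A (A *ᵥ (G *ᵥ (dl w - dl w'))) + 12 * D.eps * D.de) =
        3 * ∑ w', A w w' * En A (A *ᵥ (G *ᵥ (dl w - dl w'))) +
          12 * D.eps * D.de * ∑ w', A w w' := by
      rw [Finset.mul_sum, Finset.mul_sum, ← Finset.sum_add_distrib]
      exact Finset.sum_congr rfl fun w' _ => by ring
    have h3 := (g w).2.2
    have h4 := hA.row w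
    have h5 : 0 ≤ 12 * D.eps * D.de := by have := hD.eps0; positivity
    have h6 : 12 * D.eps * D.de ≤ D.de := by
      have := hD.eps1
      nlinarith
    have h7 : 12 * D.eps * D.de * ∑ w', A w w' ≤ D.de := by
      calc 12 * D.eps * D.de * ∑ w', A w w' ≤ 12 * D.eps * D.de * 1 :=
            mul_le_mul_of_nonneg_left h4 h5
        _ ≤ D.de := by linarith
    linarith
  refine ⟨fun w => if D.Hp w then nnf A D.ta w else 0, ?_, ?_, ?_, ?_⟩
  · intro w
    dsimp only
    split_ifs
    · exact (g w).1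
    · exact le_rfl
  · intro w
    dsimp only
    split_ifs
    · exact (g w).2.1
    · positivity
  · intro w hw
    simp [hw]
  · intro w hw
    have h1 := hGam w
    have hM : ∀ w', nnf A D.ta w' ≤ D.de * D.ta / 2 := fun w' => (g w').2.1
    have hn0 : ∀ w', 0 ≤ nnf A D.ta w' := fun w' => (g w').1
    -- compare `A` and `Ab`
    have hc : (1 - D.th) * (1 + D.b1) ≤ 1 := by
      have := hD.b1th
      nlinarith
    have hc0 : 0 < (1 - D.th) * (1 + D.b1) := by
      have : 0 < 1 - D.th := by linarith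
      have : 0 < 1 + D.b1 := by linarith
      positivity
    have h2 : ∀ w', A w w' * nnf A D.ta w' ≤
        D.Ab w w' * (if D.Hp w' then nnf A D.ta w' else 0) +
          A w w' * rs D.sg w' * (D.de * D.ta / 2) := by
      intro w'
      by_cases hw' : D.Hp w'
      · have h3 : A w w' ≤ D.Ab w w' := by
          unfold Cd.Ab
          rw [if_pos ⟨hw, hw'⟩, le_div_iff₀ hc0]
          calc mat D.x w w' * ((1 - D.th) * (1 + D.b1)) ≤ mat D.x w w' * 1 :=
                mul_le_mul_of_nonneg_left hc (hA.nonneg w w')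
            _ = A w w' := by rw [mul_one]
        rw [if_pos hw', hw'.2]
        simpa using mul_le_mul_of_nonneg_right h3 (hn0 w')
      · rw [if_neg hw', mul_zero, zero_add]
        by_cases h0 : A w w' = 0
        · rw [h0]; simp
        · have hH : D.H w' := hD.supp w' w (by rwa [mat_symm])
          have hr : rs D.sg w' ≠ 0 := fun h => hw' ⟨hH, h⟩
          have hr1 := rs_sg_ge hD.sg01 w' hr
          have hA0 := hA.nonneg w w'
          calc A w w' * nnf A D.ta w' ≤ A w w' * (D.de * D.ta / 2) :=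
                mul_le_mul_of_nonneg_left (hM w') hA0
            _ ≤ A w w' * rs D.sg w' * (D.de * D.ta / 2) := by
                refine mul_le_mul_of_nonneg_right ?_ (by positivity)
                nlinarith
    have h3 : ∑ w', A w w' * nnf A D.ta w' ≤
        (D.Ab *ᵥ fun w => if D.Hp w then nnf A D.ta w else 0) w +
          (∑ w', A w w' * rs D.sg w') * (D.de * D.ta / 2) := by
      refine (Finset.sum_le_sum fun w' _ => h2 w').trans ?_
      rw [Finset.sum_add_distrib, ← Finset.sum_mul]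
      rfl
    have h4 := i4 w
    have h5 : (∑ w', A w w' * rs D.sg w') * (D.de * D.ta / 2) ≤
        (3 / 2 * D.th) * (D.de * D.ta / 2) :=
      mul_le_mul_of_nonneg_right h4 (by positivity)
    have h6 : (if D.Hp w then nnf A D.ta w else 0) = nnf A D.ta w := if_pos hw
    simp only [h6]
    have h7 : 0 ≤ D.th * D.de * D.ta := by positivity
    nlinarith
end Pool.Agent.NIB.H39
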